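import Mathlib

set_option autoImplicit false

namespace Pool.Agent.Helper692.HpT

open Finset Filter Topology

/-- the sum of absolute values is at most four times the largest subset sum -/
lemma sum_norm_le (K : Finset ℕ) (a : ℕ → ℂ) (S : ℝ)
    (h : ∀ F : Finset ℕ, ‖∑ k ∈ F, a k‖ ≤ S) : ∑ k ∈ K, ‖a k‖ ≤ 4 * S := by
  have hr : ∀ b : ℕ → ℝ, (∀ F : Finset ℕ, |∑ k ∈ F, b k| ≤ S) → ∑ k ∈ K, |b k| ≤ 2 * S := by
    intro b hb
    have h1 := Finset.sum_filter_add_sum_filter_not K (fun k => 0 ≤ b k) (fun k => |b k|)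
    have h2 : ∑ k ∈ K with 0 ≤ b k, |b k| = ∑ k ∈ K with 0 ≤ b k, b k := by
      refine Finset.sum_congr rfl fun k hk => abs_of_nonneg (Finset.mem_filter.1 hk).2
    have h3 : ∑ k ∈ K with ¬ 0 ≤ b k, |b k| = - ∑ k ∈ K with ¬ 0 ≤ b k, b k := by
      rw [← Finset.sum_neg_distrib]
      refine Finset.sum_congr rfl fun k hk => abs_of_neg (not_le.1 (Finset.mem_filter.1 hk).2)
    have h4 := abs_le.1 (hb (K.filter fun k => 0 ≤ b k))
    have h5 := abs_le.1 (hb (K.filter fun k => ¬ 0 ≤ b k))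
    linarith
  have h1 : ∑ k ∈ K, |(a k).re| ≤ 2 * S := by
    refine hr _ fun F => ?_
    rw [← Complex.re_sum]
    exact (Complex.abs_re_le_norm _).trans (h F)
  have h2 : ∑ k ∈ K, |(a k).im| ≤ 2 * S := by
    refine hr _ fun F => ?_
    rw [← Complex.im_sum]
    exact (Complex.abs_im_le_norm _).trans (h F)
  calc ∑ k ∈ K, ‖a k‖ ≤ ∑ k ∈ K, (|(a k).re| + |(a k).im|) :=
        Finset.sum_le_sum fun k _ => Complex.norm_le_abs_re_add_abs_im _
    _ ≤ 4 * S := by rw [Finset.sum_add_distrib]; linarith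

lemma hasSum_iff_eps {X : Type*} [NormedAddCommGroup X] (v : ℕ → X) (x : X) :
    HasSum v x ↔ ∀ ε > 0, ∃ F0 : Finset ℕ, ∀ F ≥ F0, ‖∑ k ∈ F, v k - x‖ < ε := by
  unfold HasSum
  rw [SummationFilter.unconditional_filter, Metric.tendsto_atTop]
  simp_rw [dist_eq_norm]

variable {X : Type*} [NormedAddCommGroup X] [NormedSpace ℂ X] [CompleteSpace X]

omit [NormedSpace ℂ X] in
lemma bdd_of_hasSum (v : ℕ → X) (x : X) (h : HasSum v x) :
    ∃ C : ℝ, ∀ F : Finset ℕ, ‖∑ k ∈ F, v k‖ ≤ C := by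
  classical
  obtain ⟨A₀, hA₀⟩ := summable_iff_vanishing_norm.mp h.summable 1 zero_lt_one
  refine ⟨∑ k ∈ A₀, ‖v k‖ + 1, fun F => ?_⟩
  rw [← Finset.sum_inter_add_sum_sdiff F A₀ v]
  refine (norm_add_le _ _).trans (add_le_add ?_ (hA₀ _ Finset.sdiff_disjoint).le)
  refine (norm_sum_le _ _).trans ?_
  exact Finset.sum_le_sum_of_subset_of_nonneg Finset.inter_subset_right
    fun _ _ _ => norm_nonneg _

/-- a sequence with unique unconditional expansions has uniformly bounded partial sum operators -/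
theorem exists_const (e : ℕ → X) (h : ∀ f : X, ∃! c : ℕ → ℂ, HasSum (fun n => c n • e n) f) :
    ∃ (c : X →ₗ[ℂ] (ℕ → ℂ)) (C : ℝ), 0 ≤ C ∧ (∀ f, HasSum (fun n => c f n • e n) f) ∧
      ∀ (f : X) (φ : X →L[ℂ] ℂ) (K : Finset ℕ),
        ∑ k ∈ K, ‖c f k‖ * ‖φ (e k)‖ ≤ C * ‖φ‖ * ‖f‖ := by
  classical
  choose c hc huniq using h
  have hadd : ∀ f g, c (f + g) = c f + c g := by
    intro f g
    refine (huniq (f + g) _ ?_).symm
    have := (hc f).add (hc g)
    simpa [add_smul] using this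
  have hsmul : ∀ (a : ℂ) f, c (a • f) = a • c f := by
    intro a f
    refine (huniq (a • f) _ ?_).symm
    have := (hc f).const_smul a
    simpa [smul_smul] using this
  let cl : X →ₗ[ℂ] (ℕ → ℂ) := { toFun := c, map_add' := hadd, map_smul' := hsmul }
  have he : ∀ k, e k ≠ 0 := by
    intro k hk
    have h0 : HasSum (fun n => (0 : ℕ → ℂ) n • e n) (0 : X) := by simp
    have h1 : HasSum (fun n => (Pi.single k 1 : ℕ → ℂ) n • e n) (0 : X) := by
      have : (fun n => (Pi.single k 1 : ℕ → ℂ) n • e n) = fun _ => (0 : X) := by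
        funext n
        by_cases hn : n = k
        · subst hn; simp [hk]
        · simp [hn]
      rw [this]; exact hasSum_zero
    have h2 := (huniq 0 _ h0).trans (huniq 0 _ h1).symm
    have h3 := congrFun h2 k
    simp at h3
  have hbdd : ∀ f, ∃ C : ℝ, ∀ F : Finset ℕ, ‖∑ k ∈ F, c f k • e k‖ ≤ C :=
    fun f => bdd_of_hasSum _ f (hc f)
  let T : X →ₗ[ℂ] lp (fun _ : Finset ℕ => X) ⊤ :=
    { toFun := fun f => ⟨fun F => ∑ k ∈ F, c f k • e k, by
        obtain ⟨C, hC⟩ := hbdd f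
        exact memℓp_infty ⟨C, by rintro _ ⟨F, rfl⟩; exact hC F⟩⟩
      map_add' := by
        intro f g
        ext F
        simp [hadd, add_smul, Finset.sum_add_distrib]
      map_smul' := by
        intro a f
        ext F
        simp [hsmul, mul_smul, Finset.smul_sum] }
  have hT : ∀ f F, (T f : Finset ℕ → X) F = ∑ k ∈ F, c f k • e k := fun f F => rfl
  have hcoord : ∀ (u : ℕ → lp (fun _ : Finset ℕ => X) ⊤) (y : lp (fun _ : Finset ℕ => X) ⊤),
      Tendsto u atTop (𝓝 y) → ∀ F, Tendsto (fun n => (u n : Finset ℕ → X) F) atTop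
        (𝓝 ((y : Finset ℕ → X) F)) := by
    intro u y hu F
    rw [tendsto_iff_norm_sub_tendsto_zero] at hu ⊢
    refine squeeze_zero (fun _ => norm_nonneg _) (fun n => ?_) hu
    have := lp.norm_apply_le_norm ENNReal.top_ne_zero (u n - y) F
    simpa using this
  have hTc : Continuous T := by
    refine T.continuous_of_seq_closed_graph ?_
    intro u x y hu hTu
    have hF := hcoord _ y hTu
    -- coordinates converge
    have hline : ∀ k, ∃ d : ℂ, (y : Finset ℕ → X) {k} = d • e k := by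
      intro k
      have h1 := hF {k}
      have hclosed : IsClosed ((ℂ ∙ e k : Submodule ℂ X) : Set X) :=
        Submodule.closed_of_finiteDimensional _
      have h2 : (y : Finset ℕ → X) {k} ∈ ((ℂ ∙ e k : Submodule ℂ X) : Set X) := by
        refine hclosed.mem_of_tendsto h1 (Eventually.of_forall fun n => ?_)
        simp only [Function.comp, hT, Finset.sum_singleton]
        exact Submodule.smul_mem _ _ (Submodule.mem_span_singleton_self _)
      obtain ⟨d, hd⟩ := Submodule.mem_span_singleton.1 h2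
      exact ⟨d, hd.symm⟩
    choose d hd using hline
    have hyF : ∀ F : Finset ℕ, (y : Finset ℕ → X) F = ∑ k ∈ F, d k • e k := by
      intro F
      refine tendsto_nhds_unique (hF F) ?_
      simp only [Function.comp, hT]
      refine tendsto_finsetSum _ fun k _ => ?_
      have := hF {k}
      simp only [Function.comp, hT, Finset.sum_singleton] at this
      rwa [← hd k]
    have hsum : HasSum (fun n => d n • e n) x := by
      rw [hasSum_iff_eps]
      intro ε hε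
      rw [Metric.tendsto_atTop] at hu hTu
      obtain ⟨N1, h1⟩ := hu (ε / 3) (by positivity)
      obtain ⟨N2, h2⟩ := hTu (ε / 3) (by positivity)
      set n := max N1 N2
      have h1' := h1 n (le_max_left _ _)
      have h2' := h2 n (le_max_right _ _)
      have h3 : HasSum (fun k => c (u n) k • e k) (u n) := hc (u n)
      rw [hasSum_iff_eps] at h3
      obtain ⟨F0, h3'⟩ := h3 (ε / 3) (by positivity)
      refine ⟨F0, fun F hFF => ?_⟩
      have h4 := h3' F hFF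
      rw [← hyF F]
      rw [dist_eq_norm] at h1' h2'
      have h5 : ‖(y : Finset ℕ → X) F - ∑ k ∈ F, c (u n) k • e k‖ < ε / 3 := by
        have := lp.norm_apply_le_norm ENNReal.top_ne_zero (y - T (u n)) F
        refine lt_of_le_of_lt ?_ h2'
        rw [← norm_neg] at this
        refine le_trans (le_of_eq ?_) (this.trans (le_of_eq ?_))
        · rw [norm_neg]; rfl
        · rw [← norm_neg, neg_sub]; rfl
      have h6 : (y : Finset ℕ → X) F - x = ((y : Finset ℕ → X) F - ∑ k ∈ F, c (u n) k • e k) +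
          (∑ k ∈ F, c (u n) k • e k - u n) + (u n - x) := by abel
      rw [h6]
      refine lt_of_le_of_lt (norm_add_le _ _) ?_
      have := norm_add_le ((y : Finset ℕ → X) F - ∑ k ∈ F, c (u n) k • e k)
        (∑ k ∈ F, c (u n) k • e k - u n)
      linarith
    have hdc : d = c x := huniq x d hsum
    ext F
    rw [hyF F, hT, hdc]
  let Tc : X →L[ℂ] lp (fun _ : Finset ℕ => X) ⊤ := ⟨T, hTc⟩
  refine ⟨cl, 4 * ‖Tc‖, by positivity, hc, fun f φ K => ?_⟩
  have h1 : ∑ k ∈ K, ‖c f k * φ (e k)‖ ≤ 4 * (‖Tc‖ * ‖φ‖ * ‖f‖) := by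
    refine sum_norm_le K _ _ fun F => ?_
    have h2 : ∑ k ∈ F, c f k * φ (e k) = φ (∑ k ∈ F, c f k • e k) := by
      rw [map_sum]
      exact Finset.sum_congr rfl fun k _ => by rw [map_smul, smul_eq_mul]
    rw [h2]
    have h3 : ‖∑ k ∈ F, c f k • e k‖ ≤ ‖Tc‖ * ‖f‖ := by
      have h4 := lp.norm_apply_le_norm ENNReal.top_ne_zero (Tc f) F
      exact h4.trans (Tc.le_opNorm f)
    calc ‖φ (∑ k ∈ F, c f k • e k)‖ ≤ ‖φ‖ * ‖∑ k ∈ F, c f k • e k‖ := φ.le_opNorm _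
      _ ≤ ‖φ‖ * (‖Tc‖ * ‖f‖) := by gcongr
      _ = _ := by ring
  calc ∑ k ∈ K, ‖cl f k‖ * ‖φ (e k)‖ = ∑ k ∈ K, ‖c f k * φ (e k)‖ :=
        Finset.sum_congr rfl fun k _ => by rw [norm_mul]; rfl
    _ ≤ 4 * (‖Tc‖ * ‖φ‖ * ‖f‖) := h1
    _ = _ := by ring

omit [CompleteSpace X] in
/-- The Gordon-Lewis inequality with finite averages -/
theorem gl (e : ℕ → X) (c : X →ₗ[ℂ] (ℕ → ℂ)) (C : ℝ) (hC : 0 ≤ C)
    (hc : ∀ f, HasSum (fun n => c f n • e n) f)
    (hb : ∀ (f : X) (φ : X →L[ℂ] ℂ) (K : Finset ℕ),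
        ∑ k ∈ K, ‖c f k‖ * ‖φ (e k)‖ ≤ C * ‖φ‖ * ‖f‖)
    {ι U : Type*} [Fintype ι] [Fintype U] (m : U → ι → ℂ) (ρ w : ℝ) (hρ : 0 ≤ ρ) (hw : 0 ≤ w)
    (hwU : w * Fintype.card U = 1)
    (hkh : ∀ x : ι → ℂ, ρ * √(∑ i, ‖x i‖ ^ 2) ≤ w * ∑ u, ‖∑ i, x i * m u i‖)
    (Z : ι → X) (a : ι → X →L[ℂ] ℂ) (haZ : ∀ i, a i (Z i) = 1)
    (κ : ι → ℝ) (s : ι → ℂ) (hs : ∀ i, ‖s i‖ = 1) (Φ B : ℝ)
    (hΦ : ∀ u, ‖∑ i, ((κ i : ℂ) * m u i) • a i‖ ≤ Φ)
    (hB : ∀ u, ‖∑ i, (s i * m u i) • Z i‖ ≤ B) :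
    ρ ^ 2 * ∑ i, κ i ≤ C * Φ * B := by
  have hsum : HasSum (fun k => ∑ i, (κ i : ℂ) * (c (Z i) k * a i (e k))) (∑ i, (κ i : ℂ)) := by
    refine hasSum_sum fun i _ => ?_
    have h1 := ((a i).hasSum (hc (Z i))).mul_left (κ i : ℂ)
    simp only [map_smul, smul_eq_mul, haZ, mul_one] at h1
    exact h1
  have hK : ∀ K : Finset ℕ, ρ ^ 2 * ‖∑ k ∈ K, ∑ i, (κ i : ℂ) * (c (Z i) k * a i (e k))‖ ≤
      C * Φ * B := by
    intro K
    have hk : ∀ k, ρ ^ 2 * ‖∑ i, (κ i : ℂ) * (c (Z i) k * a i (e k))‖ ≤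
        (w * ∑ u, ‖c (∑ i, (s i * m u i) • Z i) k‖) *
        (w * ∑ u, ‖(∑ i, ((κ i : ℂ) * m u i) • a i) (e k)‖) := by
      intro k
      have h1 := hkh (fun i => s i * c (Z i) k)
      have h2 := hkh (fun i => (κ i : ℂ) * a i (e k))
      have h3 : ∀ u, ∑ i, s i * c (Z i) k * m u i = c (∑ i, (s i * m u i) • Z i) k := by
        intro u
        rw [map_sum, Finset.sum_apply]
        refine Finset.sum_congr rfl fun i _ => ?_
        rw [map_smul, Pi.smul_apply, smul_eq_mul]; ring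
      have h4 : ∀ u, ∑ i, (κ i : ℂ) * a i (e k) * m u i =
          (∑ i, ((κ i : ℂ) * m u i) • a i) (e k) := by
        intro u
        rw [_root_.sum_apply]
        refine Finset.sum_congr rfl fun i _ => ?_
        rw [_root_.smul_apply, smul_eq_mul]; ring
      simp_rw [h3] at h1
      simp_rw [h4] at h2
      have h5 : ‖∑ i, (κ i : ℂ) * (c (Z i) k * a i (e k))‖ ≤
          √(∑ i, ‖s i * c (Z i) k‖ ^ 2) * √(∑ i, ‖(κ i : ℂ) * a i (e k)‖ ^ 2) := by
        refine (norm_sum_le _ _).trans ?_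
        refine le_trans (le_of_eq ?_) (Real.sum_mul_le_sqrt_mul_sqrt _ _ _)
        refine Finset.sum_congr rfl fun i _ => ?_
        rw [norm_mul, norm_mul, norm_mul, norm_mul, hs]; ring
      calc ρ ^ 2 * ‖∑ i, (κ i : ℂ) * (c (Z i) k * a i (e k))‖
          ≤ ρ ^ 2 * (√(∑ i, ‖s i * c (Z i) k‖ ^ 2) * √(∑ i, ‖(κ i : ℂ) * a i (e k)‖ ^ 2)) := by
            gcongr
        _ = (ρ * √(∑ i, ‖s i * c (Z i) k‖ ^ 2)) * (ρ * √(∑ i, ‖(κ i : ℂ) * a i (e k)‖ ^ 2)) := by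
            ring
        _ ≤ _ := by gcongr
    calc ρ ^ 2 * ‖∑ k ∈ K, ∑ i, (κ i : ℂ) * (c (Z i) k * a i (e k))‖
        ≤ ρ ^ 2 * ∑ k ∈ K, ‖∑ i, (κ i : ℂ) * (c (Z i) k * a i (e k))‖ := by
          gcongr; exact norm_sum_le _ _
      _ = ∑ k ∈ K, ρ ^ 2 * ‖∑ i, (κ i : ℂ) * (c (Z i) k * a i (e k))‖ := by
          rw [Finset.mul_sum]
      _ ≤ ∑ k ∈ K, (w * ∑ u, ‖c (∑ i, (s i * m u i) • Z i) k‖) *
          (w * ∑ u, ‖(∑ i, ((κ i : ℂ) * m u i) • a i) (e k)‖) :=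
          Finset.sum_le_sum fun k _ => hk k
      _ = w ^ 2 * ∑ u, ∑ v, ∑ k ∈ K, ‖c (∑ i, (s i * m u i) • Z i) k‖ *
          ‖(∑ i, ((κ i : ℂ) * m v i) • a i) (e k)‖ := by
          have : ∀ k ∈ K, (w * ∑ u, ‖c (∑ i, (s i * m u i) • Z i) k‖) *
            (w * ∑ u, ‖(∑ i, ((κ i : ℂ) * m u i) • a i) (e k)‖) =
            w ^ 2 * ∑ u, ∑ v, ‖c (∑ i, (s i * m u i) • Z i) k‖ *
              ‖(∑ i, ((κ i : ℂ) * m v i) • a i) (e k)‖ := by
            intro k _
            rw [← Finset.sum_mul_sum]; ring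
          rw [Finset.sum_congr rfl this, ← Finset.mul_sum, Finset.sum_comm]
          congr 1
          refine Finset.sum_congr rfl fun u _ => ?_
          rw [Finset.sum_comm]
      _ ≤ w ^ 2 * ∑ u : U, ∑ v : U, C * Φ * B := by
          refine mul_le_mul_of_nonneg_left (Finset.sum_le_sum fun u _ =>
            Finset.sum_le_sum fun v _ => ?_) (by positivity)
          refine (hb _ _ K).trans ?_
          have h1 := hΦ v
          have h2 := hB u
          have h3 : 0 ≤ Φ := (norm_nonneg _).trans h1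
          gcongr
      _ = (w * Fintype.card U) ^ 2 * (C * Φ * B) := by
          rw [Finset.sum_const, Finset.sum_const, Finset.card_univ, nsmul_eq_mul, nsmul_eq_mul]
          ring
      _ = C * Φ * B := by rw [hwU]; ring
  have hlim : Tendsto (fun K : Finset ℕ => ρ ^ 2 *
      ‖∑ k ∈ K, ∑ i, (κ i : ℂ) * (c (Z i) k * a i (e k))‖) atTop
      (𝓝 (ρ ^ 2 * ‖∑ i, (κ i : ℂ)‖)) := by
    have h1 : Tendsto (fun K : Finset ℕ => ∑ k ∈ K, ∑ i, (κ i : ℂ) * (c (Z i) k * a i (e k)))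
      atTop (𝓝 (∑ i, (κ i : ℂ))) := by
      simpa [HasSum] using hsum
    exact (h1.norm).const_mul _
  have hle := le_of_tendsto hlim (Eventually.of_forall hK)
  refine le_trans ?_ hle
  have : ∑ i, κ i ≤ ‖∑ i, (κ i : ℂ)‖ := by
    rw [← Complex.ofReal_sum, Complex.norm_real]
    exact le_abs_self _
  gcongr

end Pool.Agent.Helper692.HpT
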