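import Mathlib

set_option autoImplicit false

namespace Pool.Agent.Helper692.HpT

open MeasureTheory Finset
open scoped ENNReal

abbrev Om : Type := ℕ → AddCircle (1 : ℝ)

noncomputable abbrev mu : Measure Om :=
  Measure.infinitePi (fun _ : ℕ => (AddCircle.haarAddCircle : Measure (AddCircle (1 : ℝ))))

/-- the characters of the infinite torus -/
noncomputable def chi (α : ℕ →₀ ℤ) (ω : Om) : ℂ := α.prod fun i k => fourier k (ω i)

lemma chi_zero (ω : Om) : chi 0 ω = 1 := by simp [chi]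

lemma chi_add (α β : ℕ →₀ ℤ) (ω : Om) : chi (α + β) ω = chi α ω * chi β ω := by
  classical
  exact Finsupp.prod_add_index' (fun i => by simp) (fun i k l => by simp)

lemma chi_single (i : ℕ) (k : ℤ) (ω : Om) : chi (Finsupp.single i k) ω = fourier k (ω i) := by
  unfold chi
  exact Finsupp.prod_single_index (by simp)

lemma chi_frozen (α : ℕ →₀ ℤ) (ω : Om) :
    ∏ i ∈ α.support, fourier (-(α i)) (ω i) = chi (-α) ω := by
  unfold chi Finsupp.prod
  rw [Finsupp.support_neg]
  rfl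

lemma norm_fourier_apply (k : ℤ) (x : AddCircle (1 : ℝ)) : ‖(fourier k x : ℂ)‖ = 1 := by
  simp [fourier_apply]

lemma norm_chi (α : ℕ →₀ ℤ) (ω : Om) : ‖chi α ω‖ = 1 := by
  unfold chi Finsupp.prod
  rw [norm_prod]
  exact Finset.prod_eq_one fun i _ => norm_fourier_apply _ _

lemma chi_neg (α : ℕ →₀ ℤ) (ω : Om) : chi (-α) ω = (starRingEnd ℂ) (chi α ω) := by
  rw [← chi_frozen]
  unfold chi Finsupp.prod
  rw [map_prod]
  exact Finset.prod_congr rfl fun i _ => fourier_neg

lemma chi_sum {ι : Type*} (s : Finset ι) (α : ι → (ℕ →₀ ℤ)) (ω : Om) :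
    chi (∑ i ∈ s, α i) ω = ∏ i ∈ s, chi (α i) ω := by
  classical
  induction s using Finset.induction_on with
  | empty => simp [chi_zero]
  | insert a s ha ih => rw [Finset.sum_insert ha, Finset.prod_insert ha, chi_add, ih]

lemma continuous_chi (α : ℕ →₀ ℤ) : Continuous (chi α) := by
  unfold chi Finsupp.prod
  exact continuous_finsetProd _ fun i _ => (map_continuous (fourier (α i))).comp (continuous_apply i)

lemma measurable_chi (α : ℕ →₀ ℤ) : Measurable (chi α) := (continuous_chi α).measurable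

lemma integral_fourier (k : ℤ) :
    ∫ x, (fourier k x : ℂ) ∂(AddCircle.haarAddCircle : Measure (AddCircle (1 : ℝ))) =
      if k = 0 then 1 else 0 := by
  have h := congrFun (fourierCoeff_fourier (T := 1) k) 0
  rw [fourierCoeff] at h
  simp only [neg_zero, fourier_zero, one_smul] at h
  rw [h, Pi.single_apply]
  simp [eq_comm]

lemma integral_chi (α : ℕ →₀ ℤ) : ∫ ω, chi α ω ∂mu = if α = 0 then 1 else 0 := by
  have h1 : ∀ ω : Om, chi α ω = ∏ i : α.support, fourier (α i) ((α.support.restrict ω) i) := by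
    intro ω
    unfold chi Finsupp.prod
    rw [← Finset.prod_coe_sort]
    rfl
  simp_rw [h1]
  have hm : AEStronglyMeasurable (fun y : (i : α.support) → AddCircle (1 : ℝ) =>
      ∏ i : α.support, (fourier (α i) (y i) : ℂ))
      (Measure.pi (fun i : α.support => (AddCircle.haarAddCircle : Measure (AddCircle (1 : ℝ))))) := by
    refine Continuous.aestronglyMeasurable ?_
    exact continuous_finsetProd _ fun i _ =>
      (map_continuous (fourier (α i))).comp (continuous_apply i)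
  have h2 := integral_restrict_infinitePi (s := α.support)
    (μ := fun _ : ℕ => (AddCircle.haarAddCircle : Measure (AddCircle (1 : ℝ)))) hm
  rw [h2]
  rw [integral_fintype_prod_eq_prod (fun (i : α.support) (x : AddCircle (1 : ℝ)) =>
    (fourier (α i) x : ℂ))]
  simp_rw [integral_fourier]
  split_ifs with h
  · subst h
    simp
  · obtain ⟨i, hi⟩ := Finsupp.support_nonempty_iff.2 h
    exact Finset.prod_eq_zero (Finset.mem_univ ⟨i, hi⟩) (if_neg (Finsupp.mem_support_iff.1 hi))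

variable {p : ℝ≥0∞} [Fact (1 ≤ p)]

lemma integrable_lp (f : Lp ℂ p mu) : Integrable (fun ω => (f : Om → ℂ) ω) mu :=
  (Lp.memLp f).integrable (Fact.out)

lemma integrable_mul (f : Lp ℂ p mu) (g : Om → ℂ) (hg : Continuous g) :
    Integrable (fun ω => (f : Om → ℂ) ω * g ω) mu := by
  obtain ⟨C, hC⟩ := isCompact_univ.exists_bound_of_continuousOn (f := g) hg.continuousOn
  replace hC : ∀ ω, ‖g ω‖ ≤ C := fun ω => hC ω (Set.mem_univ _)
  exact (integrable_lp f).mul_bdd hg.aestronglyMeasurable (Filter.Eventually.of_forall hC)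

lemma exists_bound {g : Om → ℂ} (hg : Continuous g) : ∃ C, ∀ ω, ‖g ω‖ ≤ C := by
  obtain ⟨C, hC⟩ := isCompact_univ.exists_bound_of_continuousOn (f := g) hg.continuousOn
  exact ⟨C, fun ω => hC ω (Set.mem_univ _)⟩

/-- the norm of a functional given by a bounded kernel with integral at most one -/
lemma norm_integral_mul_le (hp1 : 1 < p) (hp : p ≠ ⊤) (f : Lp ℂ p mu) (g : Om → ℂ)
    (hg : Continuous g) (G : ℝ) (hG : ∀ ω, ‖g ω‖ ≤ G) (hG1 : ∫ ω, ‖g ω‖ ∂mu ≤ 1) :
    ‖∫ ω, (f : Om → ℂ) ω * g ω ∂mu‖ ≤ G ^ (1 / p.toReal) * ‖f‖ := by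
  have hG0 : 0 ≤ G := (norm_nonneg _).trans (hG 0)
  have hP : 1 < p.toReal := by
    rw [← ENNReal.toReal_one]
    exact (ENNReal.toReal_lt_toReal ENNReal.one_ne_top hp).2 hp1
  set P : ℝ := p.toReal with hPdef
  have hpq : P.HolderConjugate (Real.conjExponent P) := Real.HolderConjugate.conjExponent hP
  set q : ℝ := Real.conjExponent P with hq
  have hq1 : 1 < q := hpq.symm.lt
  have hgm : MemLp (fun ω => ‖g ω‖) (ENNReal.ofReal q) mu :=
    MemLp.of_bound hg.norm.aestronglyMeasurable G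
      (Filter.Eventually.of_forall fun ω => by rw [norm_norm]; exact hG ω)
  have hfm : MemLp (fun ω => ‖(f : Om → ℂ) ω‖) (ENNReal.ofReal P) mu := by
    rw [hPdef, ENNReal.ofReal_toReal hp]
    exact (Lp.memLp f).norm
  have h1 : ‖∫ ω, (f : Om → ℂ) ω * g ω ∂mu‖ ≤ ∫ ω, ‖(f : Om → ℂ) ω‖ * ‖g ω‖ ∂mu := by
    refine (norm_integral_le_integral_norm _).trans (le_of_eq ?_)
    simp_rw [norm_mul]
  have h2 := integral_mul_le_Lp_mul_Lq_of_nonneg hpq
    (Filter.Eventually.of_forall fun ω => norm_nonneg ((f : Om → ℂ) ω))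
    (Filter.Eventually.of_forall fun ω => norm_nonneg (g ω)) hfm hgm
  have h3 : ‖f‖ = (∫ ω, ‖(f : Om → ℂ) ω‖ ^ P ∂mu) ^ (1 / P) := by
    rw [Lp.norm_def, MemLp.eLpNorm_eq_integral_rpow_norm (by positivity) hp (Lp.memLp f),
      ENNReal.toReal_ofReal (by positivity), one_div]
  have h4 : (∫ ω, ‖g ω‖ ^ q ∂mu) ≤ G ^ (q - 1) := by
    have h5 : ∀ ω, ‖g ω‖ ^ q ≤ G ^ (q - 1) * ‖g ω‖ := by
      intro ω
      have : ‖g ω‖ ^ q = ‖g ω‖ ^ (q - 1) * ‖g ω‖ := by
        rw [← Real.rpow_add_one' (norm_nonneg _) (by linarith)]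
        congr 1; ring
      rw [this]
      have hq0 : 0 ≤ q - 1 := by linarith
      have := hG ω
      gcongr
    calc (∫ ω, ‖g ω‖ ^ q ∂mu) ≤ ∫ ω, G ^ (q - 1) * ‖g ω‖ ∂mu := by
          refine integral_mono_of_nonneg (Filter.Eventually.of_forall fun ω => by positivity) ?_
            (Filter.Eventually.of_forall h5)
          refine Integrable.const_mul ?_ _
          exact (MemLp.of_bound (p := 1) hg.norm.aestronglyMeasurable G
            (Filter.Eventually.of_forall fun ω => by rw [norm_norm]; exact hG ω)).integrable le_rfl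
      _ = G ^ (q - 1) * ∫ ω, ‖g ω‖ ∂mu := integral_const_mul _ _
      _ ≤ G ^ (q - 1) * 1 := by gcongr
      _ = _ := mul_one _
  have h6 : (∫ ω, ‖g ω‖ ^ q ∂mu) ^ (1 / q) ≤ G ^ (1 / P) := by
    calc (∫ ω, ‖g ω‖ ^ q ∂mu) ^ (1 / q) ≤ (G ^ (q - 1)) ^ (1 / q) := by
          refine Real.rpow_le_rpow ?_ h4 (by positivity)
          exact integral_nonneg fun ω => by positivity
      _ = G ^ (1 / P) := by
          rw [← Real.rpow_mul hG0]
          congr 1
          have h7 := hpq.inv_add_inv_eq_one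
          have hq0 : q ≠ 0 := by linarith
          have hP0 : P ≠ 0 := by linarith
          field_simp at h7 ⊢
          linarith
  calc ‖∫ ω, (f : Om → ℂ) ω * g ω ∂mu‖ ≤ _ := h1
    _ ≤ _ := h2
    _ = ‖f‖ * (∫ ω, ‖g ω‖ ^ q ∂mu) ^ (1 / q) := by rw [← h3]
    _ ≤ ‖f‖ * G ^ (1 / P) := by gcongr
    _ = _ := mul_comm _ _

end Pool.Agent.Helper692.HpT
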