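import Pool.Agent.Helper692.HpT.Kh
import Pool.Agent.Helper692.HpT.Torus

set_option autoImplicit false

namespace Pool.Agent.Helper692.HpT

open MeasureTheory Finset
open scoped ENNReal

/-- exponents living on layers `l < V`, `a l` at the variable `2 l`, `b l` at `2 l + 1` -/
noncomputable def lay (V : ℕ) (a b : Fin V → ℤ) : ℕ →₀ ℤ :=
  ∑ l : Fin V, (Finsupp.single (2 * (l : ℕ)) (a l) + Finsupp.single (2 * (l : ℕ) + 1) (b l))

lemma lay_even (V : ℕ) (a b : Fin V → ℤ) (l : Fin V) : lay V a b (2 * (l : ℕ)) = a l := by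
  classical
  unfold lay
  rw [Finsupp.finsetSum_apply, Finset.sum_eq_single l]
  · simp
  · intro k _ hk
    have h1 : 2 * (k : ℕ) ≠ 2 * (l : ℕ) := fun h => hk (Fin.ext (by omega))
    have h2 : 2 * (k : ℕ) + 1 ≠ 2 * (l : ℕ) := by omega
    simp [h1, h2]
  · intro h; exact absurd (Finset.mem_univ _) h

lemma lay_odd (V : ℕ) (a b : Fin V → ℤ) (l : Fin V) : lay V a b (2 * (l : ℕ) + 1) = b l := by
  classical
  unfold lay
  rw [Finsupp.finsetSum_apply, Finset.sum_eq_single l]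
  · simp
  · intro k _ hk
    have h1 : 2 * (k : ℕ) + 1 ≠ 2 * (l : ℕ) + 1 := fun h => hk (Fin.ext (by omega))
    have h2 : 2 * (k : ℕ) ≠ 2 * (l : ℕ) + 1 := by omega
    rw [Finsupp.add_apply, Finsupp.single_apply, Finsupp.single_apply, if_neg h2, if_neg h1,
      add_zero]
  · intro h; exact absurd (Finset.mem_univ _) h

lemma lay_neg (V : ℕ) (a b : Fin V → ℤ) : -lay V a b = lay V (-a) (-b) := by
  unfold lay
  rw [← Finset.sum_neg_distrib]
  refine Finset.sum_congr rfl fun l _ => ?_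
  simp only [Pi.neg_apply, Finsupp.single_neg]
  abel

lemma chi_lay (V : ℕ) (a b : Fin V → ℤ) (ω : Om) : chi (lay V a b) ω =
    ∏ l : Fin V, ((fourier (a l) (ω (2 * (l : ℕ))) : ℂ) * fourier (b l) (ω (2 * (l : ℕ) + 1))) := by
  unfold lay
  rw [chi_sum]
  refine Finset.prod_congr rfl fun l _ => ?_
  rw [chi_add, chi_single, chi_single]

lemma fourier_zpow (k : ℤ) (x : AddCircle (1 : ℝ)) : (fourier k x : ℂ) = (fourier 1 x : ℂ) ^ k := by
  rw [fourier_apply, fourier_apply, one_zsmul, AddCircle.toCircle_zsmul]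
  simp

lemma one_layer_sum (ψ : ℤ → ℂ) (hψ : ∀ d, d ≠ 0 → d ≠ 1 → ψ d = 0) (R : ℕ) :
    ∑ t : Fin (R + 1) × Fin (R + 1), ψ ((t.1 : ℕ) - (t.2 : ℕ)) = (R + 1) * ψ 0 + R * ψ 1 := by
  rw [Fintype.sum_prod_type]
  have h0 : ∀ n : ℕ, ∑ x : Fin n, ∑ y : Fin n, ψ ((x : ℕ) - (y : ℕ)) =
      ∑ x ∈ range n, ∑ y ∈ range n, ψ ((x : ℤ) - (y : ℤ)) := by
    intro n
    rw [Finset.sum_range]
    refine Finset.sum_congr rfl fun x _ => ?_
    rw [Finset.sum_range]
  rw [h0]
  induction R with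
  | zero => simp
  | succ R ih =>
    rw [Finset.sum_range_succ]
    simp_rw [Finset.sum_range_succ _ (R + 1)]
    rw [Finset.sum_add_distrib, ih]
    have h1 : ∑ x ∈ range (R + 1), ψ ((x : ℤ) - ((R + 1 : ℕ) : ℤ)) = 0 := by
      refine Finset.sum_eq_zero fun x hx => ?_
      have := Finset.mem_range.1 hx
      refine hψ _ ?_ ?_ <;> omega
    have h2 : ∑ x ∈ range (R + 1), ψ (((R + 1 : ℕ) : ℤ) - (x : ℤ)) = ψ 1 := by
      rw [Finset.sum_range_succ, Finset.sum_eq_zero, zero_add]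
      · congr 1; push_cast; ring
      · intro x hx
        have := Finset.mem_range.1 hx
        refine hψ _ ?_ ?_ <;> omega
    rw [h1, h2, sub_self]
    push_cast
    ring

theorem comb (R : ℕ) : ∀ (V : ℕ) (Ψ : (Fin V → ℤ) → ℂ)
    (_ : ∀ d, (∃ l, d l ≠ 0 ∧ d l ≠ 1) → Ψ d = 0),
    ∑ t : Fin V → Fin (R + 1) × Fin (R + 1), Ψ (fun l => ((t l).1 : ℕ) - ((t l).2 : ℕ)) =
      ∑ A : Fin V → Bool, (∏ l, (if A l then (R : ℂ) else R + 1)) *
        Ψ (fun l => if A l then 1 else 0)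
  | 0, Ψ, _ => by
    rw [Fintype.sum_unique, Fintype.sum_unique]
    simp only [Finset.univ_eq_empty, Finset.prod_empty, one_mul]
    congr 1
    funext l
    exact l.elim0
  | V + 1, Ψ, hΨ => by
    rw [sum_cons, sum_cons]
    have h1 : ∀ t0 : Fin (R + 1) × Fin (R + 1), ∑ t : Fin V → Fin (R + 1) × Fin (R + 1),
        Ψ (fun l => (((Fin.cons t0 t : Fin (V + 1) → Fin (R + 1) × Fin (R + 1)) l).1 : ℕ) -
          (((Fin.cons t0 t : Fin (V + 1) → Fin (R + 1) × Fin (R + 1)) l).2 : ℕ)) =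
        ∑ A : Fin V → Bool, (∏ l, (if A l then (R : ℂ) else R + 1)) *
          Ψ (Fin.cons ((t0.1 : ℕ) - (t0.2 : ℕ) : ℤ) (fun l => if A l then 1 else 0)) := by
      intro t0
      rw [← comb R V (fun d => Ψ (Fin.cons ((t0.1 : ℕ) - (t0.2 : ℕ) : ℤ) d))]
      · refine Finset.sum_congr rfl fun t _ => ?_
        congr 1
        funext l
        refine Fin.cases ?_ (fun l => ?_) l <;> simp
      · rintro d ⟨l, hl⟩
        exact hΨ _ ⟨l.succ, by simpa using hl⟩
    rw [Finset.sum_congr rfl fun t0 _ => h1 t0, Finset.sum_comm]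
    have h2 : ∀ A : Fin V → Bool, ∑ t0 : Fin (R + 1) × Fin (R + 1),
        (∏ l, (if A l then (R : ℂ) else R + 1)) *
          Ψ (Fin.cons ((t0.1 : ℕ) - (t0.2 : ℕ) : ℤ) (fun l => if A l then 1 else 0)) =
        (∏ l, (if A l then (R : ℂ) else R + 1)) *
          ((R + 1) * Ψ (Fin.cons 0 (fun l => if A l then 1 else 0)) +
            R * Ψ (Fin.cons 1 (fun l => if A l then 1 else 0))) := by
      intro A
      rw [← Finset.mul_sum]
      congr 1
      refine one_layer_sum (fun d => Ψ (Fin.cons d (fun l => if A l then 1 else 0))) ?_ R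
      intro d hd0 hd1
      exact hΨ _ ⟨0, by simpa using ⟨hd0, hd1⟩⟩
    rw [Finset.sum_congr rfl fun A _ => h2 A, Fintype.sum_bool, ← Finset.sum_add_distrib]
    refine Finset.sum_congr rfl fun A _ => ?_
    rw [Fin.prod_univ_succ, Fin.prod_univ_succ]
    have h3 : ∀ b : Bool, (fun l : Fin (V + 1) =>
        if (Fin.cons b A : Fin (V + 1) → Bool) l then (1 : ℤ) else 0) =
        Fin.cons (if b then 1 else 0) (fun l => if A l then 1 else 0) := by
      intro b
      funext l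
      refine Fin.cases ?_ (fun l => ?_) l <;> simp
    rw [h3, h3]
    simp only [Fin.cons_zero, Fin.cons_succ, if_true, Bool.false_eq_true, if_false]
    ring

/-- expanding a product of sums -/
lemma prod_sum_fin {T : Type*} [Fintype T] : ∀ (V : ℕ) (g : Fin V → T → ℂ),
    ∏ l, ∑ t, g l t = ∑ t : Fin V → T, ∏ l, g l (t l)
  | 0, g => by simp
  | V + 1, g => by
    rw [sum_cons, Fin.prod_univ_succ, prod_sum_fin V, Finset.sum_mul_sum]
    refine Finset.sum_congr rfl fun a _ => Finset.sum_congr rfl fun t _ => ?_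
    rw [Fin.prod_univ_succ]
    simp

lemma sum_prod_bool (κ : ℝ) : ∀ (V : ℕ),
    ∑ A : Fin V → Bool, ∏ l, (if A l then κ else 1) = (1 + κ) ^ V
  | 0 => by simp
  | V + 1 => by
    rw [sum_cons, Fintype.sum_bool]
    simp only [Fin.prod_univ_succ, Fin.cons_zero, Fin.cons_succ, if_true, Bool.false_eq_true,
      if_false, one_mul]
    rw [← Finset.mul_sum, sum_prod_bool κ V]
    ring

/-- the Fejer kernel of one layer -/
noncomputable def zet (u : Fin 4) (l : ℕ) (ω : Om) : ℂ :=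
  ph u * fourier 1 (ω (2 * l)) * fourier (-1) (ω (2 * l + 1))

lemma norm_zet (u : Fin 4) (l : ℕ) (ω : Om) : ‖zet u l ω‖ = 1 := by
  unfold zet
  rw [norm_mul, norm_mul, norm_ph, norm_fourier_apply, norm_fourier_apply]
  norm_num

noncomputable def ker (V R : ℕ) (u : Fin V → Fin 4) (ω : Om) : ℂ :=
  ∏ l : Fin V, (fourier (-1) (ω (2 * (l : ℕ))) *
    ((1 / (R + 1 : ℂ)) * ((‖∑ i : Fin (R + 1), zet (u l) l ω ^ (i : ℕ)‖ ^ 2 : ℝ) : ℂ)))

lemma normsq_sum (R : ℕ) (x : ℂ) (hx : ‖x‖ = 1) :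
    ((‖∑ i : Fin (R + 1), x ^ (i : ℕ)‖ ^ 2 : ℝ) : ℂ) =
      ∑ t : Fin (R + 1) × Fin (R + 1), x ^ (((t.1 : ℕ) : ℤ) - ((t.2 : ℕ) : ℤ)) := by
  have hx0 : x ≠ 0 := by
    intro h; rw [h] at hx; simp at hx
  have hconj : (starRingEnd ℂ) x = x⁻¹ := by
    rw [Complex.inv_def, Complex.normSq_eq_norm_sq, hx]
    simp
  rw [← Complex.normSq_eq_norm_sq, Complex.normSq_eq_conj_mul_self, map_sum, Finset.sum_mul_sum,
    Fintype.sum_prod_type, Finset.sum_comm]
  refine Finset.sum_congr rfl fun i _ => Finset.sum_congr rfl fun j _ => ?_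
  rw [map_pow, hconj, zpow_sub₀ hx0, zpow_natCast, zpow_natCast, inv_pow]
  field_simp

lemma norm_ker (V R : ℕ) (u : Fin V → Fin 4) (ω : Om) : ‖ker V R u ω‖ =
    ∏ l : Fin V, ((1 / (R + 1 : ℝ)) * ‖∑ i : Fin (R + 1), zet (u l) l ω ^ (i : ℕ)‖ ^ 2) := by
  unfold ker
  rw [norm_prod]
  refine Finset.prod_congr rfl fun l _ => ?_
  rw [norm_mul, norm_fourier_apply, one_mul, norm_mul, Complex.norm_real, Real.norm_of_nonneg
    (by positivity)]
  congr 1
  rw [norm_div, norm_one]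
  congr 1
  have : ((R : ℂ) + 1) = ((R + 1 : ℝ) : ℂ) := by push_cast; ring
  rw [this, Complex.norm_real, Real.norm_of_nonneg (by positivity)]

lemma norm_ker_le (V R : ℕ) (u : Fin V → Fin 4) (ω : Om) : ‖ker V R u ω‖ ≤ (R + 1 : ℝ) ^ V := by
  rw [norm_ker]
  calc ∏ l : Fin V, ((1 / (R + 1 : ℝ)) * ‖∑ i : Fin (R + 1), zet (u l) l ω ^ (i : ℕ)‖ ^ 2)
      ≤ ∏ l : Fin V, (R + 1 : ℝ) := by
        refine Finset.prod_le_prod (fun l _ => by positivity) fun l _ => ?_
        have h1 : ‖∑ i : Fin (R + 1), zet (u l) l ω ^ (i : ℕ)‖ ≤ R + 1 := by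
          refine (norm_sum_le _ _).trans (le_of_eq ?_)
          simp [norm_zet]
        have h2 : (0 : ℝ) < R + 1 := by positivity
        calc (1 / (R + 1 : ℝ)) * ‖∑ i : Fin (R + 1), zet (u l) l ω ^ (i : ℕ)‖ ^ 2
            ≤ (1 / (R + 1 : ℝ)) * (R + 1 : ℝ) ^ 2 := by gcongr
          _ = (R + 1 : ℝ) := by field_simp
    _ = _ := by simp

lemma continuous_zet (u : Fin 4) (l : ℕ) : Continuous (zet u l) := by
  unfold zet
  have h1 : Continuous fun ω : Om => (fourier 1 (ω (2 * l)) : ℂ) :=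
    (map_continuous (fourier 1)).comp (continuous_apply _)
  have h2 : Continuous fun ω : Om => (fourier (-1) (ω (2 * l + 1)) : ℂ) :=
    (map_continuous (fourier (-1))).comp (continuous_apply _)
  exact (continuous_const.mul h1).mul h2

lemma continuous_ker (V R : ℕ) (u : Fin V → Fin 4) : Continuous (ker V R u) := by
  unfold ker
  refine continuous_finsetProd _ fun l _ => ?_
  have h1 : Continuous fun ω : Om => (fourier (-1) (ω (2 * (l : ℕ))) : ℂ) :=
    (map_continuous (fourier (-1))).comp (continuous_apply _)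
  have h2 : Continuous fun ω : Om => ∑ i : Fin (R + 1), zet (u l) l ω ^ (i : ℕ) :=
    continuous_finsetSum _ fun i _ => (continuous_zet _ _).pow _
  exact h1.mul (continuous_const.mul (Complex.continuous_ofReal.comp (h2.norm.pow 2)))

lemma zet_zpow (u : Fin 4) (l : ℕ) (ω : Om) (d : ℤ) : zet u l ω ^ d =
    ph u ^ d * (fourier d (ω (2 * l)) * fourier (-d) (ω (2 * l + 1))) := by
  unfold zet
  rw [mul_zpow, mul_zpow, ← fourier_zpow, fourier_zpow (-d), fourier_zpow (-1), ← zpow_mul]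
  rw [show (-1 : ℤ) * d = -d by ring]
  ring

lemma ker_expand (V R : ℕ) (u : Fin V → Fin 4) (ω : Om) : ker V R u ω =
    (1 / (R + 1 : ℂ)) ^ V * ∑ t : Fin V → Fin (R + 1) × Fin (R + 1),
      (∏ l, ph (u l) ^ (((t l).1 : ℕ) - ((t l).2 : ℕ) : ℤ)) *
      chi (lay V (fun l => (((t l).1 : ℕ) - ((t l).2 : ℕ) : ℤ) - 1)
        (fun l => -(((t l).1 : ℕ) - ((t l).2 : ℕ) : ℤ))) ω := by
  unfold ker
  have h1 : ∀ l : Fin V, (fourier (-1) (ω (2 * (l : ℕ))) *
    ((1 / (R + 1 : ℂ)) * ((‖∑ i : Fin (R + 1), zet (u l) l ω ^ (i : ℕ)‖ ^ 2 : ℝ) : ℂ))) =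
    (1 / (R + 1 : ℂ)) * ∑ t : Fin (R + 1) × Fin (R + 1),
      (ph (u l) ^ ((t.1 : ℕ) - (t.2 : ℕ) : ℤ) *
        (fourier (((t.1 : ℕ) - (t.2 : ℕ) : ℤ) - 1) (ω (2 * (l : ℕ))) *
          fourier (-((t.1 : ℕ) - (t.2 : ℕ) : ℤ)) (ω (2 * (l : ℕ) + 1)))) := by
    intro l
    rw [normsq_sum R _ (norm_zet _ _ _), mul_left_comm, Finset.mul_sum]
    congr 1
    refine Finset.sum_congr rfl fun t _ => ?_
    rw [zet_zpow, sub_eq_add_neg _ (1 : ℤ), fourier_add]
    ring
  rw [Finset.prod_congr rfl fun l _ => h1 l, Finset.prod_mul_distrib, Finset.prod_const,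
    Finset.card_univ, Fintype.card_fin, prod_sum_fin]
  congr 1
  refine Finset.sum_congr rfl fun t _ => ?_
  rw [chi_lay, ← Finset.prod_mul_distrib]

lemma norm_ker_expand (V R : ℕ) (u : Fin V → Fin 4) (ω : Om) : ((‖ker V R u ω‖ : ℝ) : ℂ) =
    (1 / (R + 1 : ℂ)) ^ V * ∑ t : Fin V → Fin (R + 1) × Fin (R + 1),
      (∏ l, ph (u l) ^ (((t l).1 : ℕ) - ((t l).2 : ℕ) : ℤ)) *
      chi (lay V (fun l => (((t l).1 : ℕ) - ((t l).2 : ℕ) : ℤ))
        (fun l => -(((t l).1 : ℕ) - ((t l).2 : ℕ) : ℤ))) ω := by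
  rw [norm_ker, Complex.ofReal_prod]
  have h1 : ∀ l : Fin V, (((1 / (R + 1 : ℝ)) *
    ‖∑ i : Fin (R + 1), zet (u l) l ω ^ (i : ℕ)‖ ^ 2 : ℝ) : ℂ) =
    (1 / (R + 1 : ℂ)) * ∑ t : Fin (R + 1) × Fin (R + 1),
      (ph (u l) ^ ((t.1 : ℕ) - (t.2 : ℕ) : ℤ) *
        (fourier ((t.1 : ℕ) - (t.2 : ℕ) : ℤ) (ω (2 * (l : ℕ))) *
          fourier (-((t.1 : ℕ) - (t.2 : ℕ) : ℤ)) (ω (2 * (l : ℕ) + 1)))) := by
    intro l
    rw [Complex.ofReal_mul, normsq_sum R _ (norm_zet _ _ _)]
    congr 1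
    · push_cast; ring
    · refine Finset.sum_congr rfl fun t _ => ?_
      rw [zet_zpow]
  rw [Finset.prod_congr rfl fun l _ => h1 l, Finset.prod_mul_distrib, Finset.prod_const,
    Finset.card_univ, Fintype.card_fin, prod_sum_fin]
  congr 1
  refine Finset.sum_congr rfl fun t _ => ?_
  rw [chi_lay, ← Finset.prod_mul_distrib]

lemma integrable_chi (α : ℕ →₀ ℤ) : Integrable (chi α) mu := by
  refine (MemLp.of_bound (p := 1) (continuous_chi α).aestronglyMeasurable 1
    (Filter.Eventually.of_forall fun ω => ?_)).integrable le_rfl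
  rw [norm_chi]

lemma integral_norm_ker (V R : ℕ) (u : Fin V → Fin 4) : ∫ ω, ‖ker V R u ω‖ ∂mu = 1 := by
  have h1 : ((∫ ω, ‖ker V R u ω‖ ∂mu : ℝ) : ℂ) = 1 := by
    rw [← integral_complex_ofReal]
    simp_rw [norm_ker_expand]
    rw [integral_const_mul, integral_finsetSum]
    · simp_rw [integral_const_mul, integral_chi]
      have h2 := comb R V (fun d => (∏ l, ph (u l) ^ (d l)) *
        (if lay V d (fun l => - d l) = 0 then 1 else 0)) ?_
      · rw [h2]
        rw [Finset.sum_eq_single (fun _ => false)]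
        · have h3 : lay V (fun _ => (0 : ℤ)) (fun _ => -(0 : ℤ)) = 0 := by simp [lay]
          simp only [Bool.false_eq_true, if_false, h3, if_true]
          simp only [Finset.prod_const, Finset.card_univ, Fintype.card_fin, zpow_zero, one_pow,
            mul_one]
          rw [← mul_pow]
          have : ((R : ℂ) + 1) ≠ 0 := by exact_mod_cast Nat.succ_ne_zero R
          rw [one_div, inv_mul_cancel₀ this, one_pow]
        · intro A _ hA
          obtain ⟨l, hl⟩ : ∃ l, A l = true := by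
            by_contra hcon
            push Not at hcon
            exact hA (funext fun l => by simpa using hcon l)
          rw [if_neg]
          · ring
          · intro h0
            have := lay_even V (fun l => if A l = true then (1 : ℤ) else 0)
              (fun l => -(if A l = true then (1 : ℤ) else 0)) l
            rw [h0] at this
            simp [hl] at this
        · intro h; exact absurd (Finset.mem_univ _) h
      · rintro d ⟨l, hl0, hl1⟩
        rw [if_neg, mul_zero]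
        intro h0
        have := lay_even V d (fun l => - d l) l
        rw [h0] at this
        exact hl0 (by simpa using this.symm)
    · intro t _
      exact (integrable_chi _).const_mul _
  exact_mod_cast h1

end Pool.Agent.Helper692.HpT
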