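import Mathlib

set_option autoImplicit false

namespace Pool.Agent.Helper692.HpT

open Finset

/-- the fourth roots of unity -/
noncomputable def ph (k : Fin 4) : ℂ := Complex.I ^ (k : ℕ)

lemma norm_ph (k : Fin 4) : ‖ph k‖ = 1 := by
  simp [ph]

lemma sum_ph (a b : ℂ) : ∑ k : Fin 4, ‖a + b * ph k‖ =
    (‖a + b‖ + ‖a - b‖) + (‖a + b * Complex.I‖ + ‖a - b * Complex.I‖) := by
  simp only [Fin.sum_univ_four, ph]
  have h2 : Complex.I ^ ((2 : Fin 4) : ℕ) = -1 := by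
    simp
  have h3 : Complex.I ^ ((3 : Fin 4) : ℕ) = -Complex.I := by
    simp
  rw [h2, h3]
  simp only [Fin.val_zero, pow_zero, Fin.val_one, pow_one, mul_one, mul_neg]
  simp only [← sub_eq_add_neg]
  ring

lemma one_layer (a b : ℂ) :
    ((2 + √2) / 4) * √(‖a‖ ^ 2 + ‖b‖ ^ 2) ≤ (1 / 4) * ∑ k : Fin 4, ‖a + b * ph k‖ := by
  rw [sum_ph]
  set N : ℝ := ‖a‖ ^ 2 + ‖b‖ ^ 2 with hN
  set X : ℝ := ‖a ^ 2 - b ^ 2‖ with hX
  set Y : ℝ := ‖a ^ 2 + b ^ 2‖ with hY
  have hN0 : 0 ≤ N := by positivity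
  have hX0 : 0 ≤ X := norm_nonneg _
  have hY0 : 0 ≤ Y := norm_nonneg _
  have par : ∀ x y : ℂ, ‖x + y‖ ^ 2 + ‖x - y‖ ^ 2 = 2 * (‖x‖ ^ 2 + ‖y‖ ^ 2) := by
    intro x y
    have := parallelogram_law_with_norm ℝ x y
    nlinarith [this]
  have hI : ‖b * Complex.I‖ = ‖b‖ := by simp
  have e1 : (‖a + b‖ + ‖a - b‖) ^ 2 = 2 * N + 2 * X := by
    have h1 := par a b
    have h2 : ‖a + b‖ * ‖a - b‖ = X := by
      rw [← norm_mul, hX]; congr 1; ring
    nlinarith [h1, h2]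
  have e2 : (‖a + b * Complex.I‖ + ‖a - b * Complex.I‖) ^ 2 = 2 * N + 2 * Y := by
    have h1 := par a (b * Complex.I)
    have h2 : ‖a + b * Complex.I‖ * ‖a - b * Complex.I‖ = Y := by
      rw [← norm_mul, hY]; congr 1
      have : Complex.I ^ 2 = -1 := Complex.I_sq
      linear_combination (-b ^ 2) * this
    rw [hI] at h1
    nlinarith [h1, h2]
  have hXN : X ≤ N := by
    rw [hX, hN]
    calc ‖a ^ 2 - b ^ 2‖ ≤ ‖a ^ 2‖ + ‖b ^ 2‖ := norm_sub_le _ _
      _ = _ := by rw [norm_pow, norm_pow]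
  have hYN : Y ≤ N := by
    rw [hY, hN]
    calc ‖a ^ 2 + b ^ 2‖ ≤ ‖a ^ 2‖ + ‖b ^ 2‖ := norm_add_le _ _
      _ = _ := by rw [norm_pow, norm_pow]
  have hXY : N ^ 2 ≤ X ^ 2 + Y ^ 2 := by
    have h1 := par (a ^ 2) (b ^ 2)
    rw [norm_pow, norm_pow] at h1
    have h2 : X ^ 2 + Y ^ 2 = 2 * ((‖a‖ ^ 2) ^ 2 + (‖b‖ ^ 2) ^ 2) := by
      rw [← h1, hX, hY]; ring
    rw [h2, hN]
    nlinarith [sq_nonneg (‖a‖ ^ 2 - ‖b‖ ^ 2)]
  set S : ℝ := ‖a + b‖ + ‖a - b‖ with hS
  set T : ℝ := ‖a + b * Complex.I‖ + ‖a - b * Complex.I‖ with hT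
  have hS0 : 0 ≤ S := by positivity
  have hT0 : 0 ≤ T := by positivity
  have hsum : N * N ≤ N * (X + Y) := by nlinarith
  have h2 : (√2) ^ 2 = 2 := Real.sq_sqrt (by norm_num)
  have h20 : 0 ≤ √2 := Real.sqrt_nonneg _
  have hST : 2 * √2 * N ≤ S * T := by
    have h3 : (2 * √2 * N) ^ 2 ≤ (S * T) ^ 2 := by
      rw [mul_pow, mul_pow, h2, mul_pow, e1, e2]
      nlinarith [mul_nonneg hX0 hY0]
    exact le_of_sq_le_sq h3 (by positivity)
  have hXYN : N ≤ X + Y := by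
    rcases hN0.eq_or_lt with h | h
    · rw [← h]; positivity
    · exact le_of_mul_le_mul_left hsum h
  have hfin : (2 + √2) * √N ≤ S + T := by
    have hsN : √N ^ 2 = N := Real.sq_sqrt hN0
    have h3 : ((2 + √2) * √N) ^ 2 ≤ (S + T) ^ 2 := by
      rw [mul_pow, hsN]
      have : (S + T) ^ 2 = S ^ 2 + T ^ 2 + 2 * (S * T) := by ring
      rw [this, e1, e2]
      have : (2 + √2) ^ 2 * N = (6 + 4 * √2) * N := by
        have : (2 + √2) ^ 2 = 6 + 4 * √2 := by nlinarith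
        rw [this]
      rw [this]
      nlinarith
    exact le_of_sq_le_sq h3 (by positivity)
  nlinarith

lemma sum_cons {M α : Type*} [AddCommMonoid M] [Fintype α] (V : ℕ) (f : (Fin (V + 1) → α) → M) :
    ∑ A, f A = ∑ a : α, ∑ A : Fin V → α, f (Fin.cons a A) := by
  rw [← (Fin.consEquiv (fun _ : Fin (V + 1) => α)).sum_comp, Fintype.sum_prod_type]
  rfl

/-- Khintchine's inequality for multilinear sums, by Minkowski's inequality. -/
theorem kh : ∀ (V : ℕ) (x : (Fin V → Bool) → ℂ),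
    ((2 + √2) / 4) ^ V * √(∑ A, ‖x A‖ ^ 2) ≤
      (1 / 4) ^ V * ∑ u : Fin V → Fin 4, ‖∑ A, x A * ∏ l, (if A l then ph (u l) else 1)‖
  | 0, x => by
    simp
  | V + 1, x => by
    set r : ℝ := (2 + √2) / 4 with hr
    have hr0 : 0 ≤ r := by positivity
    -- decomposition
    have key : ∀ u0 : Fin 4, ∀ u : Fin V → Fin 4,
        ∑ A : Fin (V + 1) → Bool, x A *
          ∏ l, (if A l then ph ((Fin.cons u0 u : Fin (V + 1) → Fin 4) l) else 1) =
        (∑ A : Fin V → Bool, x (Fin.cons false A) * ∏ l, (if A l then ph (u l) else 1)) +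
        (∑ A : Fin V → Bool, x (Fin.cons true A) * ∏ l, (if A l then ph (u l) else 1)) * ph u0 := by
      intro u0 u
      rw [sum_cons]
      simp only [Fin.prod_univ_succ, Fin.cons_zero, Fin.cons_succ]
      rw [Fintype.sum_bool, Finset.sum_mul, add_comm]
      congr 1
      · refine Finset.sum_congr rfl fun A _ => ?_
        simp
      · refine Finset.sum_congr rfl fun A _ => ?_
        simp only [if_true]
        ring
    have hsq : ∑ A : Fin (V + 1) → Bool, ‖x A‖ ^ 2 =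
        ∑ A : Fin V → Bool, ‖x (Fin.cons false A)‖ ^ 2 +
        ∑ A : Fin V → Bool, ‖x (Fin.cons true A)‖ ^ 2 := by
      rw [sum_cons, Fintype.sum_bool, add_comm]
    have ihf := kh V (fun A => x (Fin.cons false A))
    have iht := kh V (fun A => x (Fin.cons true A))
    set F : (Fin V → Fin 4) → ℂ := fun u =>
      ∑ A : Fin V → Bool, x (Fin.cons false A) * ∏ l, (if A l then ph (u l) else 1) with hF
    set T : (Fin V → Fin 4) → ℂ := fun u =>
      ∑ A : Fin V → Bool, x (Fin.cons true A) * ∏ l, (if A l then ph (u l) else 1) with hT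
    set sf : ℝ := ∑ A : Fin V → Bool, ‖x (Fin.cons false A)‖ ^ 2 with hsf
    set st : ℝ := ∑ A : Fin V → Bool, ‖x (Fin.cons true A)‖ ^ 2 with hst
    have hsf0 : 0 ≤ sf := by positivity
    have hst0 : 0 ≤ st := by positivity
    have hrhs : ∑ u : Fin (V + 1) → Fin 4, ‖∑ A, x A * ∏ l, (if A l then ph (u l) else 1)‖ =
        ∑ u : Fin V → Fin 4, ∑ u0 : Fin 4, ‖F u + T u * ph u0‖ := by
      rw [sum_cons, Finset.sum_comm]
      refine Finset.sum_congr rfl fun u _ => Finset.sum_congr rfl fun u0 _ => ?_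
      rw [key u0 u]
    rw [hrhs, hsq]
    -- Minkowski
    have hmink : √((∑ u, ‖F u‖) ^ 2 + (∑ u, ‖T u‖) ^ 2) ≤ ∑ u, √(‖F u‖ ^ 2 + ‖T u‖ ^ 2) := by
      have h1 : ∀ a b : ℝ, ‖((a : ℂ) + (b : ℂ) * Complex.I)‖ = √(a ^ 2 + b ^ 2) := by
        intro a b
        rw [Complex.norm_add_mul_I]
      rw [← h1]
      simp_rw [← h1]
      refine le_trans (le_of_eq ?_) (norm_sum_le _ _)
      congr 1
      push_cast
      rw [Finset.sum_add_distrib, Finset.sum_mul]
    have h4 : (0 : ℝ) ≤ (1 / 4) ^ V := by positivity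
    calc r ^ (V + 1) * √(sf + st)
        = r * √((r ^ V * √sf) ^ 2 + (r ^ V * √st) ^ 2) := by
          rw [mul_pow, mul_pow, Real.sq_sqrt hsf0, Real.sq_sqrt hst0, ← mul_add,
            Real.sqrt_mul (by positivity), Real.sqrt_sq (by positivity)]
          ring
      _ ≤ r * √(((1 / 4) ^ V * ∑ u, ‖F u‖) ^ 2 + ((1 / 4) ^ V * ∑ u, ‖T u‖) ^ 2) := by
          refine mul_le_mul_of_nonneg_left (Real.sqrt_le_sqrt ?_) hr0
          gcongr
      _ = (1 / 4) ^ V * (r * √((∑ u, ‖F u‖) ^ 2 + (∑ u, ‖T u‖) ^ 2)) := by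
          rw [mul_pow, mul_pow, ← mul_add, Real.sqrt_mul (by positivity),
            Real.sqrt_sq (by positivity)]
          ring
      _ ≤ (1 / 4) ^ V * (r * ∑ u, √(‖F u‖ ^ 2 + ‖T u‖ ^ 2)) := by
          gcongr
      _ = (1 / 4) ^ V * (∑ u, r * √(‖F u‖ ^ 2 + ‖T u‖ ^ 2)) := by
          rw [Finset.mul_sum]
      _ ≤ (1 / 4) ^ V * (∑ u, (1 / 4) * ∑ u0 : Fin 4, ‖F u + T u * ph u0‖) := by
          refine mul_le_mul_of_nonneg_left (Finset.sum_le_sum fun u _ => one_layer _ _) h4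
      _ = (1 / 4) ^ (V + 1) * ∑ u, ∑ u0 : Fin 4, ‖F u + T u * ph u0‖ := by
          rw [← Finset.mul_sum, pow_succ]; ring

/-- Rudin-Shapiro signs -/
def eps : (V : ℕ) → Bool → (Fin V → Bool) → ℤ
  | 0, _, _ => 1
  | V + 1, q, A => (if A 0 && q then -1 else 1) * eps V (A 0) (Fin.tail A)

lemma eps_sq : ∀ (V : ℕ) (q : Bool) (A : Fin V → Bool), eps V q A ^ 2 = 1
  | 0, q, A => by simp [eps]
  | V + 1, q, A => by
    rw [eps, mul_pow, eps_sq V]
    split_ifs <;> simp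

lemma norm_eps (V : ℕ) (q : Bool) (A : Fin V → Bool) : ‖(eps V q A : ℂ)‖ = 1 := by
  have h := eps_sq V q A
  rcases sq_eq_sq_iff_eq_or_eq_neg.mp (h.trans (one_pow 2).symm) with h | h <;> simp [h]

/-- the Rudin-Shapiro multilinear forms are flat -/
theorem rs : ∀ (V : ℕ) (z w : Fin V → ℂ), (∀ l, ‖z l‖ = 1) → (∀ l, ‖w l‖ = 1) →
    ‖∑ A, (eps V false A : ℂ) * ∏ l, (if A l then w l else z l)‖ ^ 2 +
    ‖∑ A, (eps V true A : ℂ) * ∏ l, (if A l then w l else z l)‖ ^ 2 = 2 ^ (V + 1)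
  | 0, z, w, _, _ => by
    simp [eps]
    norm_num
  | V + 1, z, w, hz, hw => by
    have ih := rs V (Fin.tail z) (Fin.tail w) (fun l => hz _) (fun l => hw _)
    have key : ∀ q : Bool, ∑ A : Fin (V + 1) → Bool, (eps (V + 1) q A : ℂ) *
        ∏ l, (if A l then w l else z l) =
        z 0 * (∑ A : Fin V → Bool, (eps V false A : ℂ) *
          ∏ l, (if A l then Fin.tail w l else Fin.tail z l)) +
        (if q then -1 else 1) * (w 0 * (∑ A : Fin V → Bool, (eps V true A : ℂ) *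
          ∏ l, (if A l then Fin.tail w l else Fin.tail z l))) := by
      intro q
      rw [sum_cons]
      simp only [Fin.prod_univ_succ, Fin.cons_zero, Fin.cons_succ]
      rw [Fintype.sum_bool, add_comm]
      congr 1
      · rw [Finset.mul_sum]
        refine Finset.sum_congr rfl fun A _ => ?_
        simp [eps, Fin.tail_def]
        ring
      · rw [Finset.mul_sum, Finset.mul_sum]
        refine Finset.sum_congr rfl fun A _ => ?_
        cases q <;> simp [eps, Fin.tail_def] <;> ring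
    rw [key, key]
    set P : ℂ := ∑ A : Fin V → Bool, (eps V false A : ℂ) *
          ∏ l, (if A l then Fin.tail w l else Fin.tail z l)
    set Q : ℂ := ∑ A : Fin V → Bool, (eps V true A : ℂ) *
          ∏ l, (if A l then Fin.tail w l else Fin.tail z l)
    have h := parallelogram_law_with_norm ℝ (z 0 * P) (w 0 * Q)
    rw [norm_mul, norm_mul, hz, hw, one_mul, one_mul] at h
    simp only [if_true, Bool.false_eq_true, if_false, one_mul, neg_mul]
    rw [← sub_eq_add_neg, pow_succ 2 (V + 1), ← ih]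
    nlinarith [h]

lemma rs_le (V : ℕ) (z w : Fin V → ℂ) (hz : ∀ l, ‖z l‖ = 1) (hw : ∀ l, ‖w l‖ = 1) :
    ‖∑ A, (eps V false A : ℂ) * ∏ l, (if A l then w l else z l)‖ ≤ √2 ^ (V + 1) := by
  have h := rs V z w hz hw
  have h2 : (√2 ^ (V + 1)) ^ 2 = 2 ^ (V + 1) := by
    rw [← pow_mul, mul_comm, pow_mul, Real.sq_sqrt (by norm_num)]
  refine le_of_sq_le_sq ?_ (by positivity)
  rw [h2, ← h]
  nlinarith [sq_nonneg (‖∑ A, (eps V true A : ℂ) * ∏ l, (if A l then w l else z l)‖)]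

end Pool.Agent.Helper692.HpT
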