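import Pool.Agent.Helper692.HpT.Kernel
import Pool.Agent.Helper692.HpT.Basis

set_option autoImplicit false

namespace Pool.Agent.Helper692.HpT

open MeasureTheory Finset
open scoped ENNReal

variable {p : ℝ≥0∞} [Fact (1 ≤ p)]

lemma norm_integral_le_lp (f : Lp ℂ p mu) (g : Om → ℂ) (hg : Continuous g) (C : ℝ)
    (hC : ∀ ω, ‖g ω‖ ≤ C) : ‖∫ ω, (f : Om → ℂ) ω * g ω ∂mu‖ ≤ C * ‖f‖ := by
  have hC0 : 0 ≤ C := (norm_nonneg _).trans (hC 0)
  have h1 : ∫ ω, ‖(f : Om → ℂ) ω‖ ∂mu ≤ ‖f‖ := by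
    have h2 : ∫ ω, ‖(f : Om → ℂ) ω‖ ∂mu = (eLpNorm (f : Om → ℂ) 1 mu).toReal := by
      rw [eLpNorm_one_eq_lintegral_enorm, integral_norm_eq_lintegral_enorm
        (integrable_lp f).aestronglyMeasurable]
    rw [h2, Lp.norm_def]
    refine ENNReal.toReal_mono (Lp.eLpNorm_ne_top f) ?_
    exact eLpNorm_le_eLpNorm_of_exponent_le Fact.out (Lp.aestronglyMeasurable f)
  calc ‖∫ ω, (f : Om → ℂ) ω * g ω ∂mu‖ ≤ ∫ ω, ‖(f : Om → ℂ) ω * g ω‖ ∂mu :=
        norm_integral_le_integral_norm _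
    _ ≤ ∫ ω, C * ‖(f : Om → ℂ) ω‖ ∂mu := by
        refine integral_mono (integrable_mul f g hg).norm ((integrable_lp f).norm.const_mul C) ?_
        intro ω
        simp only [norm_mul]
        rw [mul_comm]
        exact mul_le_mul_of_nonneg_right (hC ω) (norm_nonneg _)
    _ = C * ∫ ω, ‖(f : Om → ℂ) ω‖ ∂mu := integral_const_mul _ _
    _ ≤ C * ‖f‖ := by gcongr

/-- the functional given by a continuous kernel -/
noncomputable def Lam (g : Om → ℂ) (hg : Continuous g) : Lp ℂ p mu →L[ℂ] ℂ :=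
  LinearMap.mkContinuousOfExistsBound
    { toFun := fun f => ∫ ω, (f : Om → ℂ) ω * g ω ∂mu
      map_add' := by
        intro f h
        rw [← integral_add (integrable_mul f g hg) (integrable_mul h g hg)]
        refine integral_congr_ae ?_
        filter_upwards [Lp.coeFn_add f h] with ω hω
        rw [hω, Pi.add_apply]; ring
      map_smul' := by
        intro c f
        rw [RingHom.id_apply, smul_eq_mul, ← integral_const_mul]
        refine integral_congr_ae ?_
        filter_upwards [Lp.coeFn_smul c f] with ω hω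
        rw [hω, Pi.smul_apply, smul_eq_mul]; ring }
    (by
      obtain ⟨C, hC⟩ := exists_bound hg
      exact ⟨C, fun f => norm_integral_le_lp f g hg C hC⟩)

lemma Lam_apply (g : Om → ℂ) (hg : Continuous g) (f : Lp ℂ p mu) :
    Lam g hg f = ∫ ω, (f : Om → ℂ) ω * g ω ∂mu := rfl

/-- the Hardy space of the infinite torus -/
noncomputable def Hp (p : ℝ≥0∞) [Fact (1 ≤ p)] : Submodule ℂ (Lp ℂ p mu) where
  carrier := {f | ∀ α : ℕ →₀ ℤ, (∃ i, α i < 0) →
    Lam (chi (-α)) (continuous_chi _) f = 0}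
  zero_mem' := by
    intro α _
    exact map_zero _
  add_mem' := by
    intro f g hf hg α hα
    rw [map_add, hf α hα, hg α hα, add_zero]
  smul_mem' := by
    intro c f hf α hα
    rw [map_smul, hf α hα, smul_zero]

lemma mem_Hp (f : Lp ℂ p mu) : f ∈ Hp p ↔ ∀ α : ℕ →₀ ℤ, (∃ i, α i < 0) →
    ∫ ω, (f : Om → ℂ) ω * ∏ i ∈ α.support, fourier (-(α i)) (ω i) ∂mu = 0 := by
  simp_rw [chi_frozen]
  rfl

lemma isClosed_Hp : IsClosed (Hp p : Set (Lp ℂ p mu)) := by
  have : (Hp p : Set (Lp ℂ p mu)) = ⋂ (α : ℕ →₀ ℤ) (_ : ∃ i, α i < 0),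
      {f | Lam (chi (-α)) (continuous_chi _) f = 0} := by
    ext f
    simp only [Set.mem_iInter]
    rfl
  rw [this]
  exact isClosed_iInter fun α => isClosed_iInter fun _ =>
    isClosed_eq (Lam _ _).continuous continuous_const

instance : CompleteSpace (Hp p) := isClosed_Hp.completeSpace_coe

/-- a continuous function as an element of `L^p` -/
noncomputable def tl (p : ℝ≥0∞) [Fact (1 ≤ p)] : C(Om, ℂ) →L[ℂ] Lp ℂ p mu :=
  ContinuousMap.toLp p mu ℂ

lemma coe_tl (g : C(Om, ℂ)) : (tl p g : Om → ℂ) =ᵐ[mu] g := ContinuousMap.coeFn_toLp mu g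

lemma norm_tl_le (g : C(Om, ℂ)) (C : ℝ) (hC : ∀ ω, ‖g ω‖ ≤ C) : ‖tl p g‖ ≤ C := by
  have hC0 : 0 ≤ C := (norm_nonneg _).trans (hC 0)
  have h := Lp.norm_le_of_ae_bound (f := tl p g) hC0 (by
    filter_upwards [coe_tl (p := p) g] with ω hω
    rw [hω]; exact hC ω)
  have h1 : measureUnivNNReal mu = 1 := by simp [measureUnivNNReal]
  simpa [h1] using h

noncomputable def chiC (α : ℕ →₀ ℤ) : C(Om, ℂ) := ⟨chi α, continuous_chi α⟩

lemma Lam_tl (g : Om → ℂ) (hg : Continuous g) (f : C(Om, ℂ)) :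
    Lam g hg (tl p f) = ∫ ω, f ω * g ω ∂mu := by
  rw [Lam_apply]
  refine integral_congr_ae ?_
  filter_upwards [coe_tl (p := p) f] with ω hω
  rw [hω]

lemma Lam_chi (α β : ℕ →₀ ℤ) : Lam (chi (-α)) (continuous_chi _) (tl p (chiC β)) =
    if β = α then 1 else 0 := by
  rw [Lam_tl]
  have : ∀ ω, chiC β ω * chi (-α) ω = chi (β + -α) ω := fun ω => by rw [chi_add]; rfl
  simp_rw [this]
  rw [integral_chi]
  congr 1
  rw [← sub_eq_add_neg, sub_eq_zero]

lemma chi_mem (β : ℕ →₀ ℤ) (hβ : ∀ i, 0 ≤ β i) : tl p (chiC β) ∈ Hp p := by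
  intro α hα
  rw [Lam_chi, if_neg]
  rintro rfl
  obtain ⟨i, hi⟩ := hα
  exact absurd (hβ i) (not_le.2 hi)

/-- the exponent of the monomial of a set of layers -/
noncomputable def al (V : ℕ) (A : Fin V → Bool) : ℕ →₀ ℤ :=
  lay V (fun l => if A l then 0 else 1) (fun l => if A l then 1 else 0)

lemma al_nonneg (V : ℕ) (A : Fin V → Bool) (i : ℕ) : 0 ≤ al V A i := by
  unfold al lay
  rw [Finsupp.finsetSum_apply]
  refine Finset.sum_nonneg fun l _ => ?_
  rw [Finsupp.add_apply, Finsupp.single_apply, Finsupp.single_apply]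
  have h1 : (0 : ℤ) ≤ if A l = true then 0 else 1 := by split_ifs <;> simp
  have h2 : (0 : ℤ) ≤ if A l = true then 1 else 0 := by split_ifs <;> simp
  refine add_nonneg ?_ ?_
  · by_cases h : 2 * (l : ℕ) = i
    · rw [if_pos h]; exact h1
    · rw [if_neg h]
  · by_cases h : 2 * (l : ℕ) + 1 = i
    · rw [if_pos h]; exact h2
    · rw [if_neg h]

noncomputable def mm (V : ℕ) (u : Fin V → Fin 4) (A : Fin V → Bool) : ℂ :=
  ∏ l, (if A l then ph (u l) else 1)

noncomputable def kap (V R : ℕ) (A : Fin V → Bool) : ℝ :=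
  ∏ l, (if A l then (R / (R + 1) : ℝ) else 1)

lemma ph_ne_zero (k : Fin 4) : ph k ≠ 0 := by
  intro h
  have := norm_ph k
  rw [h] at this
  simp at this

lemma functional_eq (V R : ℕ) (u : Fin V → Fin 4) (f : Lp ℂ p mu) (hf : f ∈ Hp p) :
    ∑ A, ((kap V R A : ℂ) * mm V u A) * Lam (chi (-al V A)) (continuous_chi _) f =
      ∫ ω, (f : Om → ℂ) ω * ker V R u ω ∂mu := by
  have hR : ((R : ℂ) + 1) ≠ 0 := by exact_mod_cast Nat.succ_ne_zero R
  have h1 : ∫ ω, (f : Om → ℂ) ω * ker V R u ω ∂mu =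
      (1 / (R + 1 : ℂ)) ^ V * ∑ t : Fin V → Fin (R + 1) × Fin (R + 1),
      (∏ l, ph (u l) ^ (((t l).1 : ℕ) - ((t l).2 : ℕ) : ℤ)) *
      ∫ ω, (f : Om → ℂ) ω * chi (lay V (fun l => (((t l).1 : ℕ) - ((t l).2 : ℕ) : ℤ) - 1)
        (fun l => -(((t l).1 : ℕ) - ((t l).2 : ℕ) : ℤ))) ω ∂mu := by
    rw [Finset.mul_sum]
    simp_rw [← integral_const_mul]
    rw [← integral_finsetSum]
    · refine integral_congr_ae (Filter.Eventually.of_forall fun ω => ?_)
      simp only
      rw [ker_expand, Finset.mul_sum, Finset.mul_sum]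
      refine Finset.sum_congr rfl fun t _ => ?_
      ring
    · intro t _
      exact ((integrable_mul f _ (continuous_chi _)).const_mul _).const_mul _
  rw [h1]
  have h2 := comb R V (fun d => (∏ l, ph (u l) ^ (d l)) *
    ∫ ω, (f : Om → ℂ) ω * chi (lay V (fun l => d l - 1) (fun l => - d l)) ω ∂mu) ?_
  · rw [h2, Finset.mul_sum]
    refine Finset.sum_congr rfl fun A _ => ?_
    have h3 : (fun l : Fin V => (if A l = true then (1 : ℤ) else 0) - 1) =
        -(fun l : Fin V => if A l = true then (0 : ℤ) else 1) := by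
      funext l
      simp only [Pi.neg_apply]
      split_ifs <;> simp
    have h4 : (fun l : Fin V => -(if A l = true then (1 : ℤ) else 0)) =
        -(fun l : Fin V => if A l = true then (1 : ℤ) else 0) := by
      funext l
      simp only [Pi.neg_apply]
    rw [h3, h4, ← lay_neg, ← al, ← Lam_apply (hg := continuous_chi _), ← mul_assoc, ← mul_assoc]
    congr 1
    have h5 : mm V u A = ∏ l, ph (u l) ^ (if A l = true then (1 : ℤ) else 0) := by
      unfold mm
      refine Finset.prod_congr rfl fun l _ => ?_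
      split_ifs <;> simp
    rw [h5]
    congr 1
    have h6 : (1 / (R + 1 : ℂ)) ^ V = ∏ _l : Fin V, (1 / (R + 1 : ℂ)) := by
      simp
    rw [h6, ← Finset.prod_mul_distrib]
    unfold kap
    rw [Complex.ofReal_prod]
    refine Finset.prod_congr rfl fun l _ => ?_
    split_ifs
    · push_cast
      field_simp
    · push_cast
      field_simp
  · rintro d ⟨l, hl0, hl1⟩
    have h3 := hf (-(lay V (fun l => d l - 1) (fun l => - d l))) ?_
    · rw [Lam_apply, neg_neg] at h3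
      rw [h3, mul_zero]
    · rcases lt_or_gt_of_ne hl0 with h | h
      · refine ⟨2 * (l : ℕ) + 1, ?_⟩
        rw [Finsupp.neg_apply, lay_odd]
        omega
      · refine ⟨2 * (l : ℕ), ?_⟩
        rw [Finsupp.neg_apply, lay_even]
        omega

lemma functional_norm (hp1 : 1 < p) (hp : p ≠ ⊤) (V R : ℕ) (u : Fin V → Fin 4) :
    ‖∑ A, ((kap V R A : ℂ) * mm V u A) •
      ((Lam (chi (-al V A)) (continuous_chi _)).comp (Hp p).subtypeL)‖ ≤
      ((R + 1 : ℝ) ^ V) ^ (1 / p.toReal) := by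
  refine ContinuousLinearMap.opNorm_le_bound _ (by positivity) fun f => ?_
  rw [_root_.sum_apply]
  have h1 : ∑ A, (((kap V R A : ℂ) * mm V u A) •
      ((Lam (chi (-al V A)) (continuous_chi _)).comp (Hp p).subtypeL)) f =
      ∑ A, ((kap V R A : ℂ) * mm V u A) * Lam (chi (-al V A)) (continuous_chi _) (f : Lp ℂ p mu) := by
    refine Finset.sum_congr rfl fun A _ => ?_
    rw [_root_.smul_apply, smul_eq_mul]
    rfl
  rw [h1, functional_eq V R u (f : Lp ℂ p mu) f.2]
  exact norm_integral_mul_le hp1 hp _ _ (continuous_ker V R u) _ (norm_ker_le V R u)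
    (integral_norm_ker V R u).le

noncomputable def ZZ (p : ℝ≥0∞) [Fact (1 ≤ p)] (V : ℕ) (A : Fin V → Bool) : Hp p :=
  ⟨tl p (chiC (al V A)), chi_mem _ (al_nonneg V A)⟩

lemma rs_norm (V : ℕ) (u : Fin V → Fin 4) :
    ‖∑ A, ((eps V false A : ℂ) * mm V u A) • ZZ p V A‖ ≤ √2 ^ (V + 1) := by
  have h1 : ‖∑ A, ((eps V false A : ℂ) * mm V u A) • ZZ p V A‖ =
      ‖tl p (∑ A, ((eps V false A : ℂ) * mm V u A) • chiC (al V A))‖ := by
    rw [map_sum, Submodule.coe_norm, Submodule.coe_sum]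
    congr 1
  rw [h1]
  refine norm_tl_le _ _ fun ω => ?_
  have h2 := rs_le V (fun l => (fourier 1 (ω (2 * (l : ℕ))) : ℂ))
    (fun l => ph (u l) * (fourier 1 (ω (2 * (l : ℕ) + 1)) : ℂ))
    (fun l => norm_fourier_apply _ _)
    (fun l => by rw [norm_mul, norm_ph, norm_fourier_apply, one_mul])
  refine le_trans (le_of_eq ?_) h2
  congr 1
  rw [ContinuousMap.coe_sum, Finset.sum_apply]
  refine Finset.sum_congr rfl fun A _ => ?_
  rw [ContinuousMap.coe_smul, Pi.smul_apply, smul_eq_mul, mul_assoc]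
  congr 1
  have h3 : chiC (al V A) ω = chi (al V A) ω := rfl
  rw [h3, al, chi_lay, mm, ← Finset.prod_mul_distrib]
  refine Finset.prod_congr rfl fun l _ => ?_
  split_ifs <;> simp

/-- the main inequality for all numbers of layers -/
theorem main_ineq (hp1 : 1 < p) (hp : p ≠ ⊤) (e : ℕ → Hp p)
    (h : ∀ f : Hp p, ∃! c : ℕ → ℂ, HasSum (fun n => c n • e n) f) :
    ∃ C : ℝ, ∀ V R : ℕ, (((2 + √2) / 4) ^ V) ^ 2 * (1 + R / (R + 1) : ℝ) ^ V ≤
      C * ((R + 1 : ℝ) ^ V) ^ (1 / p.toReal) * √2 ^ (V + 1) := by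
  obtain ⟨c, C, hC, hc, hb⟩ := exists_const e h
  refine ⟨C, fun V R => ?_⟩
  have h1 := gl e c C hC hc hb (mm V) (((2 + √2) / 4) ^ V) ((1 / 4) ^ V) (by positivity)
    (by positivity) (by simp) (fun x => kh V x) (ZZ p V)
    (fun A => (Lam (chi (-al V A)) (continuous_chi _)).comp (Hp p).subtypeL)
    (fun A => by
      change Lam (chi (-al V A)) (continuous_chi _) (tl p (chiC (al V A))) = 1
      rw [Lam_chi, if_pos rfl])
    (kap V R) (fun A => (eps V false A : ℂ)) (fun A => norm_eps V false A)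
    (((R + 1 : ℝ) ^ V) ^ (1 / p.toReal)) (√2 ^ (V + 1))
    (fun u => functional_norm hp1 hp V R u) (fun u => rs_norm V u)
  unfold kap at h1
  rw [sum_prod_bool] at h1
  exact h1

lemma numeric : 1014 / 1000 * √2 < ((2 + √2) / 4) ^ 2 * (63 / 32) := by
  have h1 : √2 ^ 2 = 2 := Real.sq_sqrt (by norm_num)
  have h2 : √2 < 1.41422 := by
    rw [Real.sqrt_lt' (by norm_num)]; norm_num
  nlinarith

lemma numeric2 : (32 : ℝ) < (1014 / 1000) ^ 250 := by
  norm_num

lemma rpow_bound (P : ℝ) (hP : 250 ≤ P) : (32 : ℝ) ^ (1 / P) ≤ 1014 / 1000 := by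
  have hP0 : 0 < P := by linarith
  have h1 : (32 : ℝ) ≤ (1014 / 1000) ^ P := by
    refine numeric2.le.trans ?_
    rw [← Real.rpow_natCast]
    exact Real.rpow_le_rpow_of_exponent_le (by norm_num) (by exact_mod_cast hP)
  calc (32 : ℝ) ^ (1 / P) ≤ ((1014 / 1000 : ℝ) ^ P) ^ (1 / P) := by
        exact Real.rpow_le_rpow (by norm_num) h1 (by positivity)
    _ = 1014 / 1000 := by
        rw [← Real.rpow_mul (by norm_num), mul_one_div_cancel hP0.ne', Real.rpow_one]

/-- For `250 ≤ p < ∞` the space `H^p` of the infinite torus has no unconditional basis. -/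
theorem no_basis (hP : 250 ≤ p.toReal) (e : ℕ → Hp p)
    (h : ∀ f : Hp p, ∃! c : ℕ → ℂ, HasSum (fun n => c n • e n) f) : False := by
  have hp : p ≠ ⊤ := by
    rintro rfl
    simp at hP
    linarith
  have hp1 : 1 < p := by
    rw [← ENNReal.toReal_lt_toReal ENNReal.one_ne_top hp, ENNReal.toReal_one]
    linarith
  obtain ⟨C, hC⟩ := main_ineq hp1 hp e h
  set r : ℝ := (2 + √2) / 4 with hr
  set q : ℝ := r ^ 2 * (63 / 32) / (1014 / 1000 * √2) with hq
  have hq1 : 1 < q := by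
    rw [hq, one_lt_div (by positivity)]
    exact numeric
  have hmain : ∀ V : ℕ, q ^ V ≤ |C| * √2 := by
    intro V
    have h1 := hC V 31
    have h2 : (1 + ((31 : ℕ) : ℝ) / (((31 : ℕ) : ℝ) + 1)) = 63 / 32 := by norm_num
    have h3 : (((31 : ℕ) : ℝ) + 1) = 32 := by norm_num
    rw [h2, h3] at h1
    have h4 : ((32 : ℝ) ^ V) ^ (1 / p.toReal) ≤ (1014 / 1000) ^ V := by
      rw [← Real.rpow_natCast, ← Real.rpow_mul (by norm_num), mul_comm, Real.rpow_mul (by norm_num),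
        Real.rpow_natCast]
      exact pow_le_pow_left₀ (by positivity) (rpow_bound _ hP) V
    rw [hq, div_pow, div_le_iff₀ (by positivity), mul_pow, ← pow_mul, mul_comm 2 V, pow_mul]
    calc (r ^ V) ^ 2 * (63 / 32) ^ V ≤ C * ((32 : ℝ) ^ V) ^ (1 / p.toReal) * √2 ^ (V + 1) := h1
      _ ≤ |C| * (1014 / 1000) ^ V * √2 ^ (V + 1) := by
          have h5 : C ≤ |C| := le_abs_self C
          gcongr
      _ = |C| * √2 * (1014 / 1000 * √2) ^ V := by rw [mul_pow, pow_succ]; ring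
  obtain ⟨n, hn⟩ := pow_unbounded_of_one_lt (|C| * √2) hq1
  exact absurd (hmain n) (not_le.2 hn)

end Pool.Agent.Helper692.HpT
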